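import Pool.Agent.Helper7_GA.All

/-!
# Nuclear dimension of graph C*-algebras: vertices on at most one cycle

Let `E` be a directed graph (of any cardinality, with sinks, sources and infinite emitters
allowed) and let `A` be a C*-algebra generated by a Cuntz–Krieger family or, more generally, by a
Toeplitz–Cuntz–Krieger family `(p, S)` of `E`, for instance `A = C*(E)`.

* If every vertex of `E` lies on at most one cycle, then `dim_nuc(A) ≤ 1`.
* More generally, let `I` be a closed ideal of `A` such that every vertex `v` with `p_v ∉ I` lies
  on at most one cycle. Then `max(1, dim_nuc(A)) = max(1, dim_nuc(I))`.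

So `dim_nuc(C*(E)) ≤ 1` for all graphs of this kind (for instance for the graphs of the
Vaksman–Soibelman quantum spheres, of quantum lens spaces and quantum projective spaces), and for
every graph `E` the question whether `dim_nuc(C*(E)) ≤ 1` is reduced to the ideal generated by
the projections of the vertices which lie on two different cycles.

## Proof

Local approximation by the subalgebras `B` generated by `I` and the elements of a finite subgraph
reduces the theorem to such `B` (completely positive contractive maps into finite-dimensional
algebras extend, by Arveson's theorem). By Zorn's lemma `B` has a largest closed ideal `K ⊇ I` with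
`dim_nuc(K) ≤ N`, where `N = max(1, dim_nuc(I))`. If `K ≠ B`, the quotient `Q = B / K` is generated
by a Toeplitz–Cuntz–Krieger family of a finite graph. If one of the projections
`p_v - ∑ S_e S_e^*` is not zero in `Q`, then it is a minimal projection with corner `ℂ`. Otherwise
let `H` be the finite nonempty set of vertices with `p_v ≠ 0` in `Q`; each of them emits an edge
with range in `H`, so there is a cycle in `H` without exit in `H`, and the corner of `p_v`, for
`v` on this cycle, is generated by a unitary element. In both cases `Q` has a nonzero ideal with a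
full commutative hereditary subalgebra of dimension at most one, and the theorem on extensions by
such quotients (`Pool/Agent/Helper7_ND`) shows that its preimage in `B`, which is larger than `K`,
has nuclear dimension at most `N`, a contradiction.
-/

set_option autoImplicit false

open scoped Matrix.Norms.L2Operator ENNReal Matrix

noncomputable section

namespace Pool.Agent.Results.MP_3e68b9_an.AtMostOneCycle

open Pool.Agent.W659.EC Pool.Agent.Helper7_ND Pool.Agent.Helper7_GA

/-- Let the C*-algebra `A` be generated by a Toeplitz–Cuntz–Krieger family `(p, S)` of the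
directed graph `E` (for instance `A = C*(E)`). If `I` is a closed ideal of `A` such that every
vertex `v` with `p v ∉ I` lies on at most one cycle of `E`, then
`max(1, dim_nuc(A)) = max(1, dim_nuc(I))`. If every vertex of `E` lies on at most one cycle, then
`dim_nuc(A) ≤ 1`; in particular this holds for the graph C*-algebra of `E`. -/
theorem result (E : Gr) :
    (∀ (A : Type) [NonUnitalCStarAlgebra A] (p : E.V → A) (S : E.Ed → A), IsTCK E p S →
      Gen (Set.range p ∪ Set.range S) →
      (∀ (I : Type) [NonUnitalCStarAlgebra I] (ι : I →⋆ₙₐ[ℂ] A), Function.Injective ι →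
        (∀ (x : A) (i : I), (∃ i', ι i' = x * ι i) ∧ ∃ i', ι i' = ι i * x) →
        (∀ v, p v ∉ Set.range ι → E.AtMostOneCycle v) →
        max 1 (nucDim A) = max 1 (nucDim I)) ∧
      ((∀ v, E.AtMostOneCycle v) → nucDim A ≤ 1)) ∧
    ∀ (A : Type) [NonUnitalCStarAlgebra A] (p : E.V → A) (S : E.Ed → A),
      IsGraphAlgebra E p S → (∀ v, E.AtMostOneCycle v) → nucDim A ≤ 1 := by
  have key : ∀ (A : Type) [NonUnitalCStarAlgebra A] (p : E.V → A) (S : E.Ed → A), IsTCK E p S →
      Gen (Set.range p ∪ Set.range S) → (∀ v, E.AtMostOneCycle v) → nucDim A ≤ 1 := by
    intro A _ p S h hg hc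
    obtain ⟨K, iK, κ, hκ, _, hspan⟩ := J_HG.t_IG A 0
    have h0 : ∀ k : K, k = 0 := by
      intro k
      apply hκ.inj
      rw [map_zero]
      have h1 : (Submodule.span ℂ {z : A | ∃ x y : A, z = x * 0 * y} : Set A) ⊆ {0} := by
        have h2 : Submodule.span ℂ {z : A | ∃ x y : A, z = x * 0 * y} ≤ ⊥ := by
          rw [Submodule.span_le]
          rintro _ ⟨x, y, rfl⟩
          simp
        intro z hz
        simpa using h2 hz
      have h3 := closure_minimal h1 isClosed_singleton (hspan k)
      simpa using h3
    have h4 : nucDim K ≤ 0 := nucDim_of_subsingleton K fun x y => by rw [h0 x, h0 y]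
    have h5 := all_FIN E A K p S κ h hg hκ fun v _ => hc v
    exact h5.trans (max_le le_rfl (h4.trans zero_le_one))
  refine ⟨fun A _ p S h hg => ⟨fun I _ ι h1 h2 h3 => ?_, key A p S h hg⟩,
    fun A _ p S h => key A p S h.isCK.toIsTCK h.gen⟩
  have hid : IsIdeal ι := ⟨h1, fun e i => (h2 e i).1, fun e i => (h2 e i).2⟩
  exact le_antisymm (max_le (le_max_left _ _) (all_FIN E A I p S ι h hg hid h3))
    (max_le_max_left _ (ideal_le ι hid))

end Pool.Agent.Results.MP_3e68b9_an.AtMostOneCycle
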